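import Pool.Agent.helper27.SY.Spec

/-!
# Project sy, module ALL: the theorem for all large `n`
-/

set_option autoImplicit false

open Finset ArithmeticFunction

namespace Pool.Agent.SY

open Pool.Agent.SX Pool.Agent.helper85.BVP

theorem ALL_Pr {H p : ℕ} (hp : p ∈ Pr H) : p.Prime ∧ 7 ≤ p := by
  rw [Pr, mem_filter] at hp
  exact ⟨hp.2.1, hp.2.2.1⟩

/-- the remainder -/
theorem ALL_RR (C : Finset ℕ → ℝ) (H B K y : ℕ) (A D ε : ℝ) (hε : 0 ≤ ε) (hA0 : 0 ≤ A) (hD1 : 0 ≤ D)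
    (hC1 : ∀ F, |C F| ≤ 1)
    (hC2 : ∀ F, C F ≠ 0 → F ⊆ Pr H ∧ (∏ p ∈ F, p) ^ 10 ≤ 2 ^ B)
    (hrr : ∀ F ⊆ Pr H, |rr K y F| ≤ 2 ^ F.card)
    (hA : ∀ F : Finset ℕ, (∀ p ∈ F, p.Prime) → (2 : ℝ) ^ F.card ≤ A * (∏ p ∈ F, (p : ℝ)) ^ ε)
    (hD : Real.exp (B * (Real.log 2 / 10)) ≤ D) :
    |RR C (Pr H) K y| ≤ D * (A * D ^ ε) := by
  classical
  set S : Finset (Finset ℕ) := (Pr H).powerset.filter fun F => C F ≠ 0 with hS
  have hmem : ∀ F ∈ S, C F ≠ 0 := fun F hF => (mem_filter.1 hF).2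
  have hprod : ∀ F ∈ S, ((∏ p ∈ F, p : ℕ) : ℝ) ≤ D := by
    intro F hF
    have h1 := (hC2 F (hmem F hF)).2
    have h2 : ((∏ p ∈ F, p : ℕ) : ℝ) ^ 10 ≤ (Real.exp (B * (Real.log 2 / 10))) ^ 10 := by
      rw [← Real.exp_nat_mul]
      have h3 : ((10 : ℕ) : ℝ) * (B * (Real.log 2 / 10)) = B * Real.log 2 := by
        push_cast
        ring
      rw [h3, Real.exp_nat_mul, Real.exp_log (by norm_num)]
      exact_mod_cast h1
    have h4 := le_of_pow_le_pow_left₀ (by norm_num) (Real.exp_pos _).le h2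
    exact h4.trans hD
  have hcard : (S.card : ℝ) ≤ D := by
    have h1 : S.card ≤ (Icc 1 ⌊D⌋₊).card := by
      apply Finset.card_le_card_of_injOn (fun F => ∏ p ∈ F, p)
      · intro F hF
        have hF' : F ∈ S := hF
        have hsub := (hC2 F (hmem F hF')).1
        simp only [coe_Icc, Set.mem_Icc]
        refine ⟨Nat.one_le_iff_ne_zero.2 (Finset.prod_ne_zero_iff.2 fun p hp =>
          (ALL_Pr (hsub hp)).1.ne_zero), Nat.le_floor (hprod F hF')⟩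
      · intro F hF G hG hFG
        have hF' : F ∈ S := hF
        have hG' : G ∈ S := hG
        have h2 := Nat.primeFactors_prod fun p hp => (ALL_Pr ((hC2 F (hmem F hF')).1 hp)).1
        have h3 := Nat.primeFactors_prod fun p hp => (ALL_Pr ((hC2 G (hmem G hG')).1 hp)).1
        rw [← h2, ← h3]
        exact congrArg Nat.primeFactors hFG
    rw [Nat.card_Icc, Nat.add_sub_cancel] at h1
    exact (Nat.cast_le.2 h1).trans (Nat.floor_le hD1)
  have hsum : |RR C (Pr H) K y| ≤ ∑ F ∈ S, A * D ^ ε := by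
    rw [RR]
    refine (Finset.abs_sum_le_sum_abs _ _).trans ?_
    rw [hS, Finset.sum_filter]
    refine Finset.sum_le_sum fun F hF => ?_
    by_cases h0 : C F = 0
    · rw [h0, zero_mul, abs_zero]
      simp
    · rw [if_pos h0, abs_mul]
      have hsub := (hC2 F h0).1
      have hFS : F ∈ S := mem_filter.2 ⟨hF, h0⟩
      have h1 := hrr F hsub
      have h2 := hA F fun p hp => (ALL_Pr (hsub hp)).1
      have h3 : (∏ p ∈ F, (p : ℝ)) ≤ D := by
        have := hprod F hFS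
        push_cast at this
        exact this
      have h4 : (∏ p ∈ F, (p : ℝ)) ^ ε ≤ D ^ ε :=
        Real.rpow_le_rpow (Finset.prod_nonneg fun p _ => Nat.cast_nonneg _) h3 hε
      calc |C F| * |rr K y F| ≤ 1 * |rr K y F| :=
            mul_le_mul_of_nonneg_right (hC1 F) (abs_nonneg _)
        _ = |rr K y F| := one_mul _
        _ ≤ A * (∏ p ∈ F, (p : ℝ)) ^ ε := h1.trans h2
        _ ≤ A * D ^ ε := mul_le_mul_of_nonneg_left h4 hA0
  rw [Finset.sum_const, nsmul_eq_mul] at hsum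
  exact hsum.trans (mul_le_mul_of_nonneg_right hcard (mul_nonneg hA0 (Real.rpow_nonneg hD1 _)))

/-- the final inequality -/
theorem ALL_num (X L A K V R Q G : ℝ) (hX : 10 ≤ X) (hL : 0 < L) (hL2 : L ^ 2 ≤ 1000000 * X ^ (0.002 : ℝ))
    (hA : 1 ≤ A) (hbig : (A + 12) * 1000000000 ≤ X ^ (0.007 : ℝ)) (hK1 : X ^ 2 / 11 - 1 ≤ K)
    (hV : 9 / L ^ 2 ≤ V) (hR : |R| ≤ A * X ^ (1.991 : ℝ))
    (hQ : Q ≤ 8 * X ^ 2 * X ^ (-(0.16 : ℝ)) + 4 * X ^ (1.53 : ℝ))
    (hG : K * (V / 200) + R ≤ G + Q) : 1 / 1000 * X ^ 2 / L ^ 2 ≤ G := by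
  have hX0 : 0 < X := by linarith
  have hX1 : 1 ≤ X := by linarith
  have h1 : X ^ 2 * X ^ (-(0.16 : ℝ)) ≤ X ^ (1.991 : ℝ) := by
    rw [← Real.rpow_natCast X 2, ← Real.rpow_add hX0]
    exact Real.rpow_le_rpow_of_exponent_le hX1 (by norm_num)
  have h2 : X ^ (1.53 : ℝ) ≤ X ^ (1.991 : ℝ) := Real.rpow_le_rpow_of_exponent_le hX1 (by norm_num)
  have h3 : X ^ (1.991 : ℝ) * L ^ 2 * (A + 12) * 1000 ≤ X ^ 2 := by
    have h4 : X ^ (1.991 : ℝ) * L ^ 2 ≤ X ^ (1.991 : ℝ) * (1000000 * X ^ (0.002 : ℝ)) :=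
      mul_le_mul_of_nonneg_left hL2 (Real.rpow_nonneg hX0.le _)
    have h5 : X ^ 2 = X ^ (1.991 : ℝ) * X ^ (0.002 : ℝ) * X ^ (0.007 : ℝ) := by
      rw [← Real.rpow_add hX0, ← Real.rpow_add hX0, ← Real.rpow_natCast X 2]
      congr 1
      norm_num
    have h6 : 0 ≤ X ^ (1.991 : ℝ) * X ^ (0.002 : ℝ) := by positivity
    have h7 := mul_le_mul_of_nonneg_left hbig h6
    rw [h5]
    have h8 : 0 ≤ (A + 12) * 1000 := by positivity
    have h9 := mul_le_mul_of_nonneg_right h4 h8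
    linarith
  have hL2p : 0 < L ^ 2 := by positivity
  have hKV : (X ^ 2 / 11 - 1) * (9 / L ^ 2 / 200) ≤ K * (V / 200) := by
    have h5 : 0 ≤ X ^ 2 / 11 - 1 := by nlinarith
    have h6 : 0 ≤ 9 / L ^ 2 / 200 := by positivity
    exact mul_le_mul hK1 (by linarith) h6 (h5.trans hK1)
  have hR2 := (abs_le.1 hR).1
  rw [div_le_iff₀ hL2p]
  have h10 : (X ^ 2 / 11 - 1) * (9 / L ^ 2 / 200) * L ^ 2 = (X ^ 2 / 11 - 1) * 9 / 200 := by
    field_simp
  have h11 : (X ^ 2 / 11 - 1) * (9 / L ^ 2 / 200) - (A + 12) * X ^ (1.991 : ℝ) ≤ G := by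
    linarith
  have h12 := mul_le_mul_of_nonneg_right h11 hL2p.le
  rw [sub_mul, h10] at h12
  nlinarith

theorem ALL (h1 : SV1_stmt) (h2 : VLB_stmt) (h3 : PAR_stmt) (h4 : ROOT_stmt) (h5 : CNT_stmt)
    (h6 : SQ_stmt) (h7 : TSB_stmt) (h8 : TAU_stmt) : ALL_stmt := by
  obtain ⟨A, hA1, hA⟩ := h8 0.001 (by norm_num)
  have hev1 : ∀ᶠ n : ℕ in Filter.atTop, (100000000 : ℝ) ≤ Real.log n :=
    (Real.tendsto_log_atTop.comp tendsto_natCast_atTop_atTop).eventually_ge_atTop _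
  have hev2 : ∀ᶠ n : ℕ in Filter.atTop, (A + 12) * 1000000000 ≤ (n : ℝ) ^ (0.007 : ℝ) :=
    ((tendsto_rpow_atTop (by norm_num : (0 : ℝ) < 0.007)).comp
      tendsto_natCast_atTop_atTop).eventually_ge_atTop _
  obtain ⟨n₀, hn₀⟩ := Filter.eventually_atTop.1 (hev1.and (hev2.and (Filter.eventually_ge_atTop 10)))
  refine ⟨n₀, fun n hn => ?_⟩
  obtain ⟨hL, hbig, hn10⟩ := hn₀ n hn
  set L : ℝ := Real.log n with hLdef
  have hX : (10 : ℝ) ≤ n := by exact_mod_cast hn10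
  have hX0 : (0 : ℝ) < n := by linarith
  have hl2a : (0.6931 : ℝ) < Real.log 2 := by linarith [Real.log_two_gt_d9]
  have hl2b : Real.log 2 < 0.6932 := by linarith [Real.log_two_lt_d9]
  set δ : ℝ := Real.log 2 / 10 with hδ
  have hδ0 : 0 < δ := by rw [hδ]; linarith
  have hδa : (0.06931 : ℝ) < δ := by rw [hδ]; linarith
  have hδb : δ < 0.06932 := by rw [hδ]; linarith
  obtain ⟨o, Y, ho, hY1, hY2, hYx, hxY⟩ := h3 (1.53 * L / δ) (by
    rw [le_div_iff₀ hδ0]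
    nlinarith)
  obtain ⟨a, C, ha1, ha2, ha3, hCW⟩ := h1 o Y ho hY1 hY2
  set w : ℕ := 2 ^ o with hw
  have hw15 : 2 ^ 15 ≤ w := Nat.pow_le_pow_right (by norm_num) ho
  have hwr : (32768 : ℝ) ≤ w := by
    have h9 : 32768 ≤ w := hw15
    exact_mod_cast h9
  have hwo : ((2 : ℝ) ^ o) = (w : ℝ) := by rw [hw]; push_cast; rfl
  rw [hwo] at hYx hxY
  rw [le_div_iff₀ hδ0] at hYx
  rw [div_lt_iff₀ hδ0] at hxY
  have hYr : (485 : ℝ) ≤ Y := by exact_mod_cast hY1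
  have har1 : (60 : ℝ) ≤ a := by exact_mod_cast ha1
  have har2 : (a : ℝ) ≤ 120 := by exact_mod_cast ha2
  have har3 : 1091 * ((Y : ℝ) + 1) ≤ 10000 * a := by exact_mod_cast ha3
  -- `H δ`
  have hHr : ((Y * w : ℕ) : ℝ) * δ = (Y : ℝ) * w * δ := by push_cast; ring
  have hHlow : 485 / 486 * (1.53 * L) ≤ ((Y * w : ℕ) : ℝ) * δ := by
    rw [hHr]
    have h9 : ((Y : ℝ) + 1) * 485 ≤ 486 * Y := by linarith
    have h10 := mul_le_mul_of_nonneg_right h9 (by positivity : (0 : ℝ) ≤ w * δ)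
    nlinarith
  have hHup : ((Y * w : ℕ) : ℝ) * δ ≤ 1.53 * L := by rw [hHr]; exact hYx
  -- `h δ`
  have hhr : ((a * w : ℕ) : ℝ) * δ = (a : ℝ) * w * δ := by push_cast; ring
  have hhlow : 0.1669 * L ≤ ((a * w : ℕ) : ℝ) * δ := by
    rw [hhr]
    have h10 := mul_le_mul_of_nonneg_right har3 (by positivity : (0 : ℝ) ≤ w * δ)
    nlinarith
  have hexp : ∀ c : ℝ, Real.exp (c * L) = (n : ℝ) ^ c := by
    intro c
    rw [Real.rpow_def_of_pos hX0, mul_comm]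
  -- `y` and `K`
  set y : ℕ := n ^ 3 / 30 with hy
  set K : ℕ := n ^ 2 / 11 with hK
  have hy1 : 30 * y ≤ n ^ 3 := Nat.mul_div_le _ _
  have hy2 : n ^ 3 < 30 * (y + 1) := by
    have := Nat.lt_mul_div_succ (n ^ 3) (by norm_num : 0 < 30)
    exact this
  have hK1 : 11 * K ≤ n ^ 2 := Nat.mul_div_le _ _
  have hK2 : n ^ 2 < 11 * (K + 1) := Nat.lt_mul_div_succ (n ^ 2) (by norm_num : 0 < 11)
  have hKr1 : (n : ℝ) ^ 2 / 11 - 1 ≤ K := by
    have h9 : ((n ^ 2 : ℕ) : ℝ) < ((11 * (K + 1) : ℕ) : ℝ) := Nat.cast_lt.2 hK2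
    push_cast at h9
    linarith
  have hKr2 : (K : ℝ) ≤ (n : ℝ) ^ 2 := by
    have h9 : ((11 * K : ℕ) : ℝ) ≤ ((n ^ 2 : ℕ) : ℝ) := Nat.cast_le.2 hK1
    push_cast at h9
    have h10 : (0 : ℝ) ≤ K := Nat.cast_nonneg _
    linarith
  have hH1 : 1 ≤ Y * w := by
    have h9 : 0 < Y * w := Nat.mul_pos (by omega) (by omega)
    exact h9
  have hhH : a * w ≤ Y * w := Nat.mul_le_mul_right _ (by omega)
  have h28 : 28 ≤ a * w := by nlinarith
  have h7680 : 7680 ≤ a * w := by nlinarith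
  have hlog1 : Real.log ((n : ℝ) + 1) ≤ 1.01 * L := by
    have h9 : Real.log ((n : ℝ) + 1) ≤ Real.log (2 * n) :=
      Real.log_le_log (by linarith) (by linarith)
    rw [Real.log_mul (by norm_num) hX0.ne'] at h9
    linarith
  have hHδ0 : 0 < ((Y * w : ℕ) : ℝ) * δ := by
    have : 0 < 485 / 486 * (1.53 * L) := by positivity
    linarith
  -- TSB
  have hT := h7 n 6 K y (a * w) (Y * w) (293 / 100) (by omega) hH1 (by omega)
    (by
      have h9 : 30 * K ≤ 3 * n ^ 2 := by omega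
      have h10 : (n + 1) ^ 3 = n ^ 3 + 3 * n ^ 2 + 3 * n + 1 := by ring
      rw [h10]
      have h11 : 30 * (y + K) = 30 * y + 30 * K := by ring
      rw [h11]
      omega)
    (by
      have h9 : ((n ^ 10 : ℕ) : ℝ) < ((2 ^ (6 * (a * w)) : ℕ) : ℝ) := by
        push_cast
        have h10 : (n : ℝ) ^ 10 = Real.exp (10 * L) := by
          rw [hexp]
          exact_mod_cast (Real.rpow_natCast (n : ℝ) 10).symm
        have h11 : (2 : ℝ) ^ (6 * (a * w)) = Real.exp (60 * (((a * w : ℕ) : ℝ) * δ)) := by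
          have h12 : 60 * (((a * w : ℕ) : ℝ) * δ) = ((6 * (a * w) : ℕ) : ℝ) * Real.log 2 := by
            rw [hδ]
            push_cast
            ring
          rw [h12, Real.exp_nat_mul, Real.exp_log (by norm_num)]
        rw [h10, h11]
        apply Real.exp_lt_exp.2
        linarith
      exact_mod_cast h9)
    (by
      have h9 : 6 * Real.log ((n : ℝ) + 1) / (((Y * w : ℕ) : ℝ) * δ) ≤ 4 := by
        rw [div_le_iff₀ hHδ0]
        linarith
      have h10 : ((6 : ℕ) : ℝ) = 6 := by norm_num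
      rw [h10]
      linarith)
    (by
      have h9 : 3 * Real.log ((n : ℝ) + 1) / (((Y * w : ℕ) : ℝ) * δ) ≤ 2 := by
        rw [div_le_iff₀ hHδ0]
        linarith
      linarith)
  -- CNT
  have hN := h5 C K y (a * w) (Y * w) (13 * Y / 10 * w) (293 / 100) (V (Pr (a * w)) / 200) hhH hH1
    (by norm_num) hCW
  -- SQ
  have hS := h6 K y (a * w) (Y * w) h28 hhH
  -- the remainder
  have hB : Real.exp (((13 * Y / 10 * w : ℕ) : ℝ) * (Real.log 2 / 10)) ≤ (n : ℝ) ^ (1.989 : ℝ) := by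
    rw [← hexp]
    apply Real.exp_le_exp.2
    have h9 : ((13 * Y / 10 * w : ℕ) : ℝ) ≤ 1.3 * ((Y * w : ℕ) : ℝ) := by
      have h10 : 10 * (13 * Y / 10 * w) ≤ 13 * (Y * w) := by
        have h11 : 10 * (13 * Y / 10) ≤ 13 * Y := Nat.mul_div_le _ _
        nlinarith
      have h12 : ((10 * (13 * Y / 10 * w) : ℕ) : ℝ) ≤ ((13 * (Y * w) : ℕ) : ℝ) := Nat.cast_le.2 h10
      rw [Nat.cast_mul 10, Nat.cast_mul 13] at h12
      norm_num at h12 ⊢
      linarith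
    have h13 := mul_le_mul_of_nonneg_right h9 hδ0.le
    rw [hδ] at h13 hHup
    nlinarith
  have hD1 : (0 : ℝ) ≤ (n : ℝ) ^ (1.989 : ℝ) := Real.rpow_nonneg hX0.le _
  have hR := ALL_RR C (Y * w) (13 * Y / 10 * w) K y A ((n : ℝ) ^ (1.989 : ℝ)) 0.001 (by norm_num)
    (by linarith) hD1 hCW.1 hCW.2.1
    (fun F hF => h4.2 F K y fun p hp => ALL_Pr (hF hp)) hA hB
  have hR2 : |RR C (Pr (Y * w)) K y| ≤ A * (n : ℝ) ^ (1.991 : ℝ) := by
    refine hR.trans ?_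
    rw [← Real.rpow_mul hX0.le]
    have h9 : (n : ℝ) ^ (1.989 : ℝ) * (A * (n : ℝ) ^ ((1.989 : ℝ) * 0.001)) =
        A * (n : ℝ) ^ ((1.989 : ℝ) + 1.989 * 0.001) := by
      rw [Real.rpow_add hX0]
      ring
    rw [h9]
    refine mul_le_mul_of_nonneg_left ?_ (by linarith)
    exact Real.rpow_le_rpow_of_exponent_le (by linarith) (by norm_num)
  -- the squares
  have hQ : ∑ p ∈ Bl (a * w) (Y * w), (sq K y p : ℝ) ≤
      8 * (n : ℝ) ^ 2 * (n : ℝ) ^ (-(0.16 : ℝ)) + 4 * (n : ℝ) ^ (1.53 : ℝ) := by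
    refine hS.trans ?_
    have h9 : (n : ℝ) ^ (0.16 : ℝ) ≤ 2 * 2 ^ (a * w / 10) := by
      rw [← hexp]
      have h10 : 0.16 * L ≤ ((a * w / 10 + 1 : ℕ) : ℝ) * Real.log 2 := by
        have h11 : ((a * w : ℕ) : ℝ) ≤ ((10 * (a * w / 10 + 1) : ℕ) : ℝ) :=
          Nat.cast_le.2 (by omega)
        rw [Nat.cast_mul 10] at h11
        have h12 := mul_le_mul_of_nonneg_right h11 hδ0.le
        have h13 : ((10 : ℕ) : ℝ) * ((a * w / 10 + 1 : ℕ) : ℝ) * δ =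
            ((a * w / 10 + 1 : ℕ) : ℝ) * Real.log 2 := by
          rw [hδ]
          push_cast
          ring
        rw [h13] at h12
        linarith
      refine (Real.exp_le_exp.2 h10).trans (le_of_eq ?_)
      rw [Real.exp_nat_mul, Real.exp_log (by norm_num), pow_succ]
      ring
    have h14 : (2 : ℝ) ^ (Y * w / 10) ≤ (n : ℝ) ^ (1.53 : ℝ) := by
      rw [← hexp]
      have h15 : (2 : ℝ) ^ (Y * w / 10) = Real.exp (((Y * w / 10 : ℕ) : ℝ) * Real.log 2) := by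
        rw [Real.exp_nat_mul, Real.exp_log (by norm_num)]
      rw [h15]
      apply Real.exp_le_exp.2
      have h16 : ((10 * (Y * w / 10) : ℕ) : ℝ) ≤ ((Y * w : ℕ) : ℝ) :=
        Nat.cast_le.2 (Nat.mul_div_le _ _)
      rw [Nat.cast_mul 10] at h16
      have h17 := mul_le_mul_of_nonneg_right h16 hδ0.le
      have h18 : ((10 : ℕ) : ℝ) * ((Y * w / 10 : ℕ) : ℝ) * δ = ((Y * w / 10 : ℕ) : ℝ) * Real.log 2 := by
        rw [hδ]
        push_cast
        ring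
      rw [h18] at h17
      linarith
    have h19 : 4 * (K : ℝ) / 2 ^ (a * w / 10) ≤ 8 * (n : ℝ) ^ 2 * (n : ℝ) ^ (-(0.16 : ℝ)) := by
      have h20 : (0 : ℝ) < 2 ^ (a * w / 10) := by positivity
      rw [div_le_iff₀ h20]
      have h21 : (n : ℝ) ^ (-(0.16 : ℝ)) * (n : ℝ) ^ (0.16 : ℝ) = 1 := by
        rw [← Real.rpow_add hX0]
        norm_num
      have h22 : 0 ≤ (n : ℝ) ^ (-(0.16 : ℝ)) := Real.rpow_nonneg hX0.le _
      have h23 := mul_le_mul_of_nonneg_left h9 h22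
      rw [h21] at h23
      have h24 := mul_le_mul_of_nonneg_left h23 (by positivity : (0 : ℝ) ≤ 4 * (n : ℝ) ^ 2)
      nlinarith
    linarith
  -- the product
  have hVb : 9 / L ^ 2 ≤ V (Pr (a * w)) := by
    have h9 := h2 (a * w) h7680
    have hL0 : 0 < L := by linarith
    have h10 : ((a * w : ℕ) : ℝ) ≤ 5.5 * L := by
      have h11 : 485 * ((w : ℝ) * δ) ≤ 1.53 * L := by
        have h12 := mul_le_mul_of_nonneg_right hYr (by positivity : (0 : ℝ) ≤ w * δ)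
        linarith
      have h13 : ((a * w : ℕ) : ℝ) ≤ 120 * w := by
        push_cast
        exact mul_le_mul_of_nonneg_right har2 (by linarith)
      have h14 : 0.06931 * (w : ℝ) ≤ w * δ := by
        rw [mul_comm]
        exact mul_le_mul_of_nonneg_left hδa.le (by linarith)
      linarith
    have h15 : ((a * w : ℕ) : ℝ) ^ 2 ≤ 31 * L ^ 2 := by
      have h16 : (0 : ℝ) ≤ ((a * w : ℕ) : ℝ) := Nat.cast_nonneg _
      nlinarith
    have h17 : 0 ≤ V (Pr (a * w)) := by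
      by_contra hneg
      push Not at hneg
      have h18 : (0 : ℝ) ≤ ((a * w : ℕ) : ℝ) ^ 2 := sq_nonneg _
      nlinarith
    rw [div_le_iff₀ (by positivity)]
    have h19 := mul_le_mul_of_nonneg_left h15 h17
    linarith
  have hL2 : L ^ 2 ≤ 1000000 * (n : ℝ) ^ (0.002 : ℝ) := by
    have h9 : L ≤ (n : ℝ) ^ (0.001 : ℝ) / 0.001 := Real.log_le_rpow_div hX0.le (by norm_num)
    have h10 : L ≤ 1000 * (n : ℝ) ^ (0.001 : ℝ) := by
      rw [le_div_iff₀ (by norm_num)] at h9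
      linarith
    have h11 : L ^ 2 ≤ (1000 * (n : ℝ) ^ (0.001 : ℝ)) ^ 2 := pow_le_pow_left₀ (by linarith) h10 2
    refine h11.trans (le_of_eq ?_)
    rw [mul_pow, ← Real.rpow_natCast ((n : ℝ) ^ (0.001 : ℝ)) 2, ← Real.rpow_mul hX0.le]
    norm_num
  have hfin := ALL_num n L A K (V (Pr (a * w))) (RR C (Pr (Y * w)) K y)
    (∑ p ∈ Bl (a * w) (Y * w), (sq K y p : ℝ)) ((Gk K y (a * w) (Y * w) (293 / 100)).card : ℝ) hX
    (by linarith) hL2 hA1 hbig hKr1 hVb hR2 hQ hN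
  exact hfin.trans (Nat.cast_le.2 hT)

end Pool.Agent.SY
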